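import Pool.Agent.Q195.SE8

/-!
# MP_5ec319_an: sofic entropy of algebraic actions of nonamenable groups is not additive

For every countable nonamenable group `G` and every sofic approximation sequence of `G` there is a
short exact sequence `0 → A → B → C → 0` of countable `ℤ[G]`-modules such that the topological
sofic entropy (Kerr and Li) of the dual of `B` is strictly smaller than the sum of the entropies
of the duals of `A` and `C`.
-/

set_option autoImplicit false

namespace Pool.Agent.Q195.Withdrawn.AdditivityFails

open Pool.Agent.Q195.SE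

/-- Additivity of the sofic entropy fails for all nonamenable groups and all sofic
approximations. -/
theorem result (G : Type) [Group G] [Countable G] (hG : ¬ IsAmenable G) (d : ℕ → ℕ)
    (σ : ∀ i, G → Equiv.Perm (Fin (d i))) (hσ : IsSofic G d σ) :
    ∃ (A B C : Type) (_ : AddCommGroup A) (_ : AddCommGroup B) (_ : AddCommGroup C)
      (_ : Module (MonoidAlgebra ℤ G) A) (_ : Module (MonoidAlgebra ℤ G) B)
      (_ : Module (MonoidAlgebra ℤ G) C) (f : A →ₗ[MonoidAlgebra ℤ G] B)
      (g : B →ₗ[MonoidAlgebra ℤ G] C),
      (Countable A ∧ Countable B ∧ Countable C) ∧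
      (Function.Injective f ∧ Function.Exact f g ∧ Function.Surjective g) ∧
      ((∃ m, Compatible A m) ∧ (∃ m, Compatible B m) ∧ (∃ m, Compatible C m)) ∧
      ∀ (mA : MetricSpace (A →+ UnitAddCircle)) (mB : MetricSpace (B →+ UnitAddCircle))
        (mC : MetricSpace (C →+ UnitAddCircle)),
        Compatible A mA → Compatible B mB → Compatible C mC →
        entropy G B mB d σ < entropy G A mA d σ + entropy G C mC d σ := by
  obtain ⟨A, B, C, iA, iB, iC, jA, jB, jC, f, g, hA, hB, hC, h1, h2, h3, h4⟩ :=
    main G hG d σ hσ
  exact ⟨A, B, C, iA, iB, iC, jA, jB, jC, f, g, ⟨hA, hB, hC⟩, ⟨h1, h2, h3⟩,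
    ⟨exists_compatible A, exists_compatible B, exists_compatible C⟩, h4⟩

end Pool.Agent.Q195.Withdrawn.AdditivityFails
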